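import Pool.Agent.Helper59.MB.Goals1

/-!
# Packet MB-DUP
-/

set_option autoImplicit false

open MeasureTheory Filter Topology

namespace Pool.Agent.Helper73.MB

open Pool.Agent.Helper59.MB

instance haar2_haar : haar2.IsAddHaarMeasure := by
  unfold haar2
  infer_instance

theorem coord_meas (n : ℤ) (i : ℕ) : Measurable fun x : Bas => x.1 n i :=
  (measurable_pi_apply i).comp ((measurable_pi_apply n).comp measurable_fst)

theorem dec_meas : Measurable dec := by
  classical
  refine Measurable.prodMk ?_ measurable_snd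
  rw [measurable_pi_iff]
  intro n
  rw [measurable_pi_iff]
  intro e
  refine measurable_to_bool ?_
  have h : (fun x : Bas => decide (∃ J, ∀ j ≥ J, x.1 n (Nat.pair e j) = true)) ⁻¹' {true} =
      ⋃ J : ℕ, ⋂ j : ℕ, ⋂ _ : j ≥ J, {x : Bas | x.1 n (Nat.pair e j) = true} := by
    ext x
    simp
  show MeasurableSet ((fun x : Bas => decide (∃ J, ∀ j ≥ J, x.1 n (Nat.pair e j) = true)) ⁻¹'
    {true})
  rw [h]
  refine MeasurableSet.iUnion fun J => MeasurableSet.iInter fun j => MeasurableSet.iInter fun _ => ?_
  exact (coord_meas n (Nat.pair e j)) (measurableSet_singleton true)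

theorem dupB_mp (m : Measure A) [IsProbabilityMeasure m] :
    MeasurePreserving dupB (BM m) (BM (mdup m)) := by
  have h1 : MeasurePreserving (fun (x : ℤ → A) (n : ℤ) => dup (x n))
      (Measure.infinitePi fun _ : ℤ => m) (Measure.infinitePi fun _ : ℤ => mdup m) := by
    refine ⟨?_, ?_⟩
    · rw [measurable_pi_iff]
      intro n
      exact measurable_dup.comp (measurable_pi_apply n)
    · exact Measure.infinitePi_map_pi (fun _ : ℤ => m) (fun _ => measurable_dup)
  have h2 : MeasurePreserving (id : ℤ_[2] → ℤ_[2]) haar2 haar2 := MeasurePreserving.id _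
  exact h1.prod h2

theorem t_DUP : S_DUP := by
  classical
  refine ⟨fun m _ => dupB_mp m, dec_meas, ?_, ?_⟩
  · intro x
    rfl
  · intro x y h2 h
    refine Prod.ext ?_ h2
    funext n e
    obtain ⟨K, hK⟩ := h n
    have h3 : ∀ j ≥ K, y.1 n (Nat.pair e j) = x.1 n e := by
      intro j hj
      rw [hK _ (hj.le.trans (Nat.right_le_pair e j))]
      simp [dupB, dup]
    have h5 : (dec y).1 n e = decide (∃ J, ∀ j ≥ J, y.1 n (Nat.pair e j) = true) := by
      unfold dec
      congr
    rw [h5]
    cases hx : x.1 n e with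
    | true =>
      rw [decide_eq_true_iff]
      exact ⟨K, fun j hj => (h3 j hj).trans hx⟩
    | false =>
      rw [decide_eq_false_iff_not]
      rintro ⟨J, hJ⟩
      have h4 := hJ (max J K) (le_max_left _ _)
      rw [h3 _ (le_max_right _ _), hx] at h4
      exact Bool.false_ne_true h4

end Pool.Agent.Helper73.MB
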